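import Mathlib

/-!
# Faithful circuit covers: weights divisible by an odd number `k`
(MP_3c540c_co, property `P_k` of Alspach, Goddyn, Zhang and Seymour.)

For odd `k` no graph containing a subdivision of the Petersen graph has property `P_k`.
-/

set_option autoImplicit false

open Finset

namespace Pool.Agent.Results.MP_3c540c_co.OddMultiples

/-- A graph without loops; parallel edges are allowed.  `ends e` is the pair of ends of `e`. -/
structure MGraph (V E : Type) where
  ends : E → Sym2 V
  loopless : ∀ e, ¬ (ends e).IsDiag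

section Defs

variable {V E : Type} [Fintype E]

open Classical in
/-- the edges with exactly one end in `X` -/
noncomputable def cut (G : MGraph V E) (X : Set V) : Finset E :=
  univ.filter fun e => ∃ u v, u ∈ X ∧ v ∉ X ∧ G.ends e = s(u, v)

open Classical in
/-- `w e ≤ w (T - e)` for every edge cut `T` and every `e ∈ T` -/
def Admissible (G : MGraph V E) (w : E → ℕ) : Prop :=
  ∀ X : Set V, ∀ e ∈ cut G X, w e ≤ ∑ f ∈ (cut G X).erase e, w f

/-- every edge cut has even weight -/
def Eulerian (G : MGraph V E) (w : E → ℕ) : Prop :=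
  ∀ X : Set V, Even (∑ f ∈ cut G X, w f)

open Classical in
/-- `C` is the edge set of a circuit (a connected 2-regular subgraph): it is nonempty, every
vertex is an end of no or of exactly two edges of `C`, and `C` is connected (a nonempty part of
`C` closed under adjacency of edges of `C` is all of `C`). -/
def IsCircuit (G : MGraph V E) (C : Finset E) : Prop :=
  C.Nonempty ∧
  (∀ v : V, (C.filter fun e => v ∈ G.ends e).card = 0 ∨ (C.filter fun e => v ∈ G.ends e).card = 2) ∧
  ∀ D ⊆ C, D.Nonempty → (∀ e ∈ D, ∀ f ∈ C, (∃ v, v ∈ G.ends e ∧ v ∈ G.ends f) → f ∈ D) → D = C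

open Classical in
/-- `w` has a faithful circuit cover: circuits with multiplicities `χ` cover every edge `e`
exactly `w e` times -/
def HasCover (G : MGraph V E) (w : E → ℕ) : Prop :=
  ∃ χ : Finset E → ℕ, (∀ C, χ C ≠ 0 → IsCircuit G C) ∧
    ∀ e, ∑ C ∈ univ.filter (fun C => e ∈ C), χ C = w e

/-- property `P_k`: every admissible eulerian weight with all values divisible by `k` has a
faithful circuit cover -/
def PropP (k : ℕ) (G : MGraph V E) : Prop :=
  ∀ w : E → ℕ, (∀ e, k ∣ w e) → Admissible G w → Eulerian G w → HasCover G w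

end Defs

/-- first ends of the 15 edges of the Petersen graph (5 spokes, 5 outer edges, 5 inner edges) -/
def pA : Fin 15 → Fin 10 := ![0, 1, 2, 3, 4, 0, 1, 2, 3, 4, 5, 6, 7, 8, 9]

/-- second ends of the 15 edges of the Petersen graph -/
def pB : Fin 15 → Fin 10 := ![5, 6, 7, 8, 9, 1, 2, 3, 4, 0, 7, 8, 9, 5, 6]

/-- A subdivision of the Petersen graph in `G`: distinct branch vertices `br`, and for each edge
`j` of the Petersen graph a path `x j 0, x j 1, …, x j (len j)` with edges `f j 0, …` between the
branch vertices of its ends; the paths share no edges and no interior vertices. -/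
structure PetSub {V E : Type} (G : MGraph V E) where
  br : Fin 10 → V
  len : Fin 15 → ℕ
  x : Fin 15 → ℕ → V
  f : Fin 15 → ℕ → E
  br_inj : Function.Injective br
  len_pos : ∀ j, 0 < len j
  x_zero : ∀ j, x j 0 = br (pA j)
  x_len : ∀ j, x j (len j) = br (pB j)
  ends_f : ∀ j i, i < len j → G.ends (f j i) = s(x j i, x j (i + 1))
  f_inj : ∀ j i j' i', i < len j → i' < len j' → f j i = f j' i' → j = j' ∧ i = i'
  int_inj : ∀ j i j' i', 0 < i → i < len j → 0 < i' → i' < len j' → x j i = x j' i' →
    j = j' ∧ i = i'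
  int_br : ∀ j i b, 0 < i → i < len j → x j i ≠ br b

/-- the weight: 2 on the spokes and 1 on the other edges -/
def w0 : Fin 15 → ℕ := ![2, 2, 2, 2, 2, 1, 1, 1, 1, 1, 1, 1, 1, 1, 1]

theorem fin_even : ∀ s : Fin 10 → Bool,
    (∑ j : Fin 15, w0 j * (if s (pA j) = s (pB j) then 0 else 1)) % 2 = 0 := by
  decide +kernel

theorem fin_adm : ∀ s : Fin 10 → Bool, ∀ j0 : Fin 15, s (pA j0) ≠ s (pB j0) →
    2 * w0 j0 ≤ ∑ j : Fin 15, w0 j * (if s (pA j) = s (pB j) then 0 else 1) := by
  decide +kernel

theorem pA_ne_pB : ∀ j, pA j ≠ pB j := by decide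

/-- number of changes of a 0-1 sequence -/
theorem changes (b : ℕ → Bool) (m : ℕ) :
    ((range m).filter fun i => b i ≠ b (i + 1)).card % 2 = if b 0 = b m then 0 else 1 := by
  induction m with
  | zero => simp
  | succ m ih =>
    rw [Finset.range_add_one, Finset.filter_insert]
    by_cases h : b m = b (m + 1)
    · rw [if_neg (by simpa using h), ih, h]
    · rw [if_pos h, Finset.card_insert_of_notMem (by simp), Nat.add_mod, ih]
      cases h0 : b 0 <;> cases h1 : b m <;> cases h2 : b (m + 1) <;> simp_all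

section Main

variable {V E : Type} [Fintype E] {G : MGraph V E} (P : PetSub G) (k : ℕ)

open Classical in
/-- number of edges of the path `j` in `T` -/
noncomputable def num (T : Finset E) (j : Fin 15) : ℕ :=
  ((range (P.len j)).filter fun i => P.f j i ∈ T).card

open Classical in
/-- the weight on the edges of `G` -/
noncomputable def wt (e : E) : ℕ :=
  k * ∑ j : Fin 15, ∑ i ∈ range (P.len j), if P.f j i = e then w0 j else 0

open Classical in
theorem sum_wt (T : Finset E) : ∑ e ∈ T, wt P k e = k * ∑ j : Fin 15, w0 j * num P T j := by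
  unfold wt num
  rw [← Finset.mul_sum]
  congr 1
  rw [Finset.sum_comm]
  refine Finset.sum_congr rfl fun j _ => ?_
  rw [Finset.sum_comm, Finset.card_filter, Finset.mul_sum]
  refine Finset.sum_congr rfl fun i _ => ?_
  rw [Finset.sum_ite_eq]
  split_ifs <;> simp

open Classical in
theorem wt_f (j : Fin 15) (i : ℕ) (hi : i < P.len j) : wt P k (P.f j i) = k * w0 j := by
  unfold wt
  congr 1
  rw [Finset.sum_eq_single j]
  · rw [Finset.sum_eq_single i]
    · rw [if_pos rfl]
    · intro i' hi' hne
      rw [if_neg]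
      intro h
      exact hne (P.f_inj _ _ _ _ (Finset.mem_range.1 hi') hi h).2
    · intro h
      exact absurd (Finset.mem_range.2 hi) h
  · intro j' _ hne
    refine Finset.sum_eq_zero fun i' hi' => ?_
    rw [if_neg]
    intro h
    exact hne (P.f_inj _ _ _ _ (Finset.mem_range.1 hi') hi h).1
  · intro h
    exact absurd (Finset.mem_univ _) h

theorem wt_pos (e : E) (h : wt P k e ≠ 0) : ∃ j i, i < P.len j ∧ P.f j i = e := by
  by_contra hcon
  push Not at hcon
  apply h
  unfold wt
  rw [mul_eq_zero]
  right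
  refine Finset.sum_eq_zero fun j _ => Finset.sum_eq_zero fun i hi => ?_
  rw [if_neg (hcon j i (Finset.mem_range.1 hi))]

open Classical in
theorem mem_cut (X : Set V) (j : Fin 15) (i : ℕ) (hi : i < P.len j) :
    P.f j i ∈ cut G X ↔ decide (P.x j i ∈ X) ≠ decide (P.x j (i + 1) ∈ X) := by
  unfold cut
  simp only [Finset.mem_filter, Finset.mem_univ, true_and]
  rw [P.ends_f j i hi]
  constructor
  · rintro ⟨u, v, hu, hv, h⟩
    rw [Sym2.eq_iff] at h
    rcases h with ⟨h1, h2⟩ | ⟨h1, h2⟩
    · rw [h1, h2]; simp [hu, hv]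
    · rw [h1, h2]; simp [hu, hv]
  · intro h
    by_cases h1 : P.x j i ∈ X
    · refine ⟨P.x j i, P.x j (i + 1), h1, ?_, rfl⟩
      intro h2
      apply h
      simp [h1, h2]
    · refine ⟨P.x j (i + 1), P.x j i, ?_, h1, Sym2.eq_swap⟩
      by_contra h2
      apply h
      simp [h1, h2]

open Classical in
theorem num_cut (X : Set V) (j : Fin 15) :
    num P (cut G X) j % 2 =
      if decide (P.br (pA j) ∈ X) = decide (P.br (pB j) ∈ X) then 0 else 1 := by
  have h := changes (fun i => decide (P.x j i ∈ X)) (P.len j)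
  rw [P.x_zero, P.x_len] at h
  rw [← h]
  unfold num
  congr 2
  refine Finset.filter_congr fun i hi => ?_
  rw [mem_cut P X j i (Finset.mem_range.1 hi)]

theorem eulerian_wt : Eulerian G (wt P k) := by
  classical
  intro X
  rw [sum_wt]
  apply Even.mul_left
  rw [Nat.even_iff]
  have h1 : ∑ j : Fin 15, w0 j * num P (cut G X) j =
      2 * (∑ j : Fin 15, w0 j * (num P (cut G X) j / 2)) +
        ∑ j : Fin 15, w0 j * (num P (cut G X) j % 2) := by
    rw [Finset.mul_sum, ← Finset.sum_add_distrib]
    refine Finset.sum_congr rfl fun j _ => ?_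
    have := Nat.div_add_mod (num P (cut G X) j) 2
    calc w0 j * num P (cut G X) j
        = w0 j * (2 * (num P (cut G X) j / 2) + num P (cut G X) j % 2) := by rw [this]
      _ = _ := by ring
  have h2 := fin_even (fun v => decide (P.br v ∈ X))
  have h3 : ∑ j : Fin 15, w0 j * (num P (cut G X) j % 2) =
      ∑ j : Fin 15, w0 j *
        (if decide (P.br (pA j) ∈ X) = decide (P.br (pB j) ∈ X) then 0 else 1) := by
    refine Finset.sum_congr rfl fun j _ => ?_
    rw [num_cut]
  rw [h1, h3]
  omega

theorem admissible_wt : Admissible G (wt P k) := by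
  classical
  intro X e he
  have hsum : wt P k e + ∑ f ∈ (cut G X).erase e, wt P k f = ∑ f ∈ cut G X, wt P k f :=
    Finset.add_sum_erase _ _ he
  have key : 2 * wt P k e ≤ ∑ f ∈ cut G X, wt P k f := by
    by_cases h0 : wt P k e = 0
    · rw [h0]; simp
    · obtain ⟨j0, i0, hi0, rfl⟩ := wt_pos P k e h0
      rw [wt_f P k j0 i0 hi0, sum_wt]
      have hmain : 2 * w0 j0 ≤ ∑ j : Fin 15, w0 j * num P (cut G X) j := by
        have hn1 : 1 ≤ num P (cut G X) j0 := by
          unfold num
          apply Finset.card_pos.2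
          exact ⟨i0, Finset.mem_filter.2 ⟨Finset.mem_range.2 hi0, he⟩⟩
        by_cases hn2 : 2 ≤ num P (cut G X) j0
        · calc 2 * w0 j0 ≤ w0 j0 * num P (cut G X) j0 := by
                rw [mul_comm]; exact Nat.mul_le_mul_left _ hn2
            _ ≤ ∑ j : Fin 15, w0 j * num P (cut G X) j :=
                Finset.single_le_sum (f := fun j => w0 j * num P (cut G X) j)
                  (fun _ _ => Nat.zero_le _) (Finset.mem_univ j0)
        · have hn : num P (cut G X) j0 = 1 := by omega
          have hpar := num_cut P X j0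
          rw [hn] at hpar
          have hne : decide (P.br (pA j0) ∈ X) ≠ decide (P.br (pB j0) ∈ X) := by
            intro h
            rw [if_pos h] at hpar
            omega
          refine (fin_adm (fun v => decide (P.br v ∈ X)) j0 hne).trans ?_
          refine Finset.sum_le_sum fun j _ => Nat.mul_le_mul_left _ ?_
          have := num_cut P X j
          have h2 := Nat.mod_le (num P (cut G X) j) 2
          rw [this] at h2
          exact h2
      calc 2 * (k * w0 j0) = k * (2 * w0 j0) := by ring
        _ ≤ k * ∑ j : Fin 15, w0 j * num P (cut G X) j := Nat.mul_le_mul_left _ hmain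
  omega

end Main

/-- the spoke at a vertex of the Petersen graph -/
def sp : Fin 10 → Fin 15 := ![0, 1, 2, 3, 4, 0, 1, 2, 3, 4]
/-- the first other edge at a vertex -/
def r1 : Fin 10 → Fin 15 := ![5, 5, 6, 7, 8, 10, 11, 10, 11, 12]
/-- the second other edge at a vertex -/
def r2 : Fin 10 → Fin 15 := ![9, 6, 7, 8, 9, 13, 14, 12, 13, 14]
/-- the edges at a vertex -/
def inc (b : Fin 10) : Finset (Fin 15) := univ.filter fun j => pA j = b ∨ pB j = b

theorem mem_inc (b : Fin 10) (j : Fin 15) : j ∈ inc b ↔ pA j = b ∨ pB j = b := by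
  simp [inc]

theorem inc_eq : ∀ b, inc b = {sp b, r1 b, r2 b} := by decide +kernel

theorem inc_dist : ∀ b, sp b ≠ r1 b ∧ sp b ≠ r2 b ∧ r1 b ≠ r2 b := by decide +kernel

theorem inc_sum (g : Fin 15 → ℕ) (b : Fin 10) :
    ∑ j ∈ inc b, g j = g (sp b) + (g (r1 b) + g (r2 b)) := by
  obtain ⟨h1, h2, h3⟩ := inc_dist b
  rw [inc_eq b, Finset.sum_insert (by simp [h1, h2]), Finset.sum_insert (by simp [h3]),
    Finset.sum_singleton]

theorem w0_inc : ∀ b, w0 (sp b) = w0 (r1 b) + w0 (r2 b) := by decide +kernel

/-- parity: an alternating circuit of the Petersen graph has 0 or 2 outer edges -/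
theorem outer_even (a : Fin 15 → ℕ) (h1 : ∀ j, a j ≤ 1)
    (h : ∀ b, a (sp b) = a (r1 b) + a (r2 b)) : Even (a 5 + a 6 + a 7 + a 8 + a 9) := by
  have e0 : a 0 = a 5 + a 9 := h 0
  have e1 : a 1 = a 5 + a 6 := h 1
  have e2 : a 2 = a 6 + a 7 := h 2
  have e3 : a 3 = a 7 + a 8 := h 3
  have e4 : a 4 = a 8 + a 9 := h 4
  have e5 : a 0 = a 10 + a 13 := h 5
  have e6 : a 1 = a 11 + a 14 := h 6
  have e7 : a 2 = a 10 + a 12 := h 7
  have e8 : a 3 = a 11 + a 13 := h 8
  have e9 : a 4 = a 12 + a 14 := h 9
  have b0 := h1 0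
  have b1 := h1 1
  have b2 := h1 2
  have b3 := h1 3
  have b4 := h1 4
  have b5 := h1 5
  have b6 := h1 6
  have b7 := h1 7
  have b8 := h1 8
  have b9 := h1 9
  rw [Nat.even_iff]
  have c5 : a 5 = 0 ∨ a 5 = 1 := by omega
  have c6 : a 6 = 0 ∨ a 6 = 1 := by omega
  have c7 : a 7 = 0 ∨ a 7 = 1 := by omega
  have c8 : a 8 = 0 ∨ a 8 = 1 := by omega
  have c9 : a 9 = 0 ∨ a 9 = 1 := by omega
  rcases c5 with c5 | c5 <;> rcases c6 with c6 | c6 <;> rcases c7 with c7 | c7 <;>
    rcases c8 with c8 | c8 <;> rcases c9 with c9 | c9 <;> omega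

section Neg

variable {V E : Type} [Fintype E] {G : MGraph V E} (P : PetSub G)

open Classical in
theorem all_or_none (C : Finset E) (hC : IsCircuit G C)
    (hsub : ∀ e ∈ C, ∃ j i, i < P.len j ∧ P.f j i = e) (j : Fin 15) (i : ℕ)
    (hi : i < P.len j) : P.f j i ∈ C ↔ P.f j 0 ∈ C := by
  induction i with
  | zero => exact Iff.rfl
  | succ i ih =>
    rw [← ih (by omega)]
    have hs : (C.filter fun e => P.x j (i + 1) ∈ G.ends e) ⊆ {P.f j i, P.f j (i + 1)} := by
      intro e he
      rw [Finset.mem_filter] at he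
      obtain ⟨heC, hv⟩ := he
      obtain ⟨j', i', hi', rfl⟩ := hsub e heC
      rw [P.ends_f j' i' hi', Sym2.mem_iff] at hv
      rw [Finset.mem_insert, Finset.mem_singleton]
      rcases hv with hv | hv
      · have h0 : 0 < i' := by
          rcases Nat.eq_zero_or_pos i' with h | h
          · exfalso
            subst h
            rw [P.x_zero] at hv
            exact P.int_br j (i + 1) _ (Nat.succ_pos i) hi hv
          · exact h
        obtain ⟨h1, h2⟩ := P.int_inj j (i + 1) j' i' (Nat.succ_pos i) hi h0 hi' hv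
        right
        rw [h1, h2]
      · have h0 : i' + 1 < P.len j' := by
          by_contra hcon
          have hl : i' + 1 = P.len j' := by omega
          rw [hl, P.x_len] at hv
          exact P.int_br j (i + 1) _ (Nat.succ_pos i) hi hv
        obtain ⟨h1, h2⟩ := P.int_inj j (i + 1) j' (i' + 1) (Nat.succ_pos i) hi
          (Nat.succ_pos i') h0 hv
        left
        have h3 : i = i' := by omega
        rw [h1, h3]
    have m1 : P.f j i ∈ C → P.f j i ∈ C.filter fun e => P.x j (i + 1) ∈ G.ends e := by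
      intro h
      rw [Finset.mem_filter]
      refine ⟨h, ?_⟩
      rw [P.ends_f j i (by omega), Sym2.mem_iff]
      right; rfl
    have m2 : P.f j (i + 1) ∈ C →
        P.f j (i + 1) ∈ C.filter fun e => P.x j (i + 1) ∈ G.ends e := by
      intro h
      rw [Finset.mem_filter]
      refine ⟨h, ?_⟩
      rw [P.ends_f j (i + 1) hi, Sym2.mem_iff]
      left; rfl
    rcases hC.2.1 (P.x j (i + 1)) with h0 | h2
    · rw [Finset.card_eq_zero] at h0
      rw [h0] at m1 m2
      constructor
      · intro h
        exact absurd (m2 h) (Finset.notMem_empty _)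
      · intro h
        exact absurd (m1 h) (Finset.notMem_empty _)
    · have heq := Finset.eq_of_subset_of_card_le hs (by rw [h2]; exact Finset.card_le_two)
      have n1 : P.f j i ∈ C.filter fun e => P.x j (i + 1) ∈ G.ends e := by
        rw [heq]; simp
      have n2 : P.f j (i + 1) ∈ C.filter fun e => P.x j (i + 1) ∈ G.ends e := by
        rw [heq]; simp
      exact ⟨fun _ => (Finset.mem_filter.1 n1).1, fun _ => (Finset.mem_filter.1 n2).1⟩

open Classical in
/-- indicator of the path `j` -/
noncomputable def ci (C : Finset E) (j : Fin 15) : ℕ := if P.f j 0 ∈ C then 1 else 0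

theorem ci_le (C : Finset E) (j : Fin 15) : ci P C j ≤ 1 := by
  unfold ci; split_ifs <;> omega

open Classical in
theorem branch_deg (C : Finset E) (hC : IsCircuit G C)
    (hsub : ∀ e ∈ C, ∃ j i, i < P.len j ∧ P.f j i = e) (b : Fin 10) :
    ∑ j ∈ inc b, ci P C j = 0 ∨ ∑ j ∈ inc b, ci P C j = 2 := by
  have h1 : ∑ j ∈ inc b, ci P C j = ((inc b).filter fun j => P.f j 0 ∈ C).card := by
    rw [Finset.card_filter]; rfl
  have hcard : ((inc b).filter fun j => P.f j 0 ∈ C).card =
      (C.filter fun e => P.br b ∈ G.ends e).card := by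
    refine Finset.card_bij (fun j _ => if pA j = b then P.f j 0 else P.f j (P.len j - 1)) ?_ ?_ ?_
    · intro j hj
      rw [Finset.mem_filter] at hj ⊢
      obtain ⟨hjb, hjC⟩ := hj
      rw [mem_inc] at hjb
      have hl := P.len_pos j
      split_ifs with h
      · refine ⟨hjC, ?_⟩
        rw [P.ends_f j 0 hl, Sym2.mem_iff, P.x_zero, h]
        left; rfl
      · have hB : pB j = b := by tauto
        refine ⟨(all_or_none P C hC hsub j _ (by omega)).2 hjC, ?_⟩
        rw [P.ends_f j _ (by omega), Sym2.mem_iff]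
        right
        rw [Nat.sub_add_cancel hl, P.x_len, hB]
    · intro j hj j' hj' heq
      have hl := P.len_pos j
      have hl' := P.len_pos j'
      split_ifs at heq
      · exact (P.f_inj _ _ _ _ (by omega) (by omega) heq).1
      · exact (P.f_inj _ _ _ _ (by omega) (by omega) heq).1
      · exact (P.f_inj _ _ _ _ (by omega) (by omega) heq).1
      · exact (P.f_inj _ _ _ _ (by omega) (by omega) heq).1
    · intro e he
      rw [Finset.mem_filter] at he
      obtain ⟨heC, hv⟩ := he
      obtain ⟨j, i, hi, rfl⟩ := hsub e heC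
      have hj0 := (all_or_none P C hC hsub j i hi).1 heC
      rw [P.ends_f j i hi, Sym2.mem_iff] at hv
      rcases hv with hv | hv
      · have hi0 : i = 0 := by
          by_contra h
          exact P.int_br j i b (Nat.pos_of_ne_zero h) hi hv.symm
        subst hi0
        rw [P.x_zero] at hv
        have hb := P.br_inj hv
        refine ⟨j, Finset.mem_filter.2 ⟨(mem_inc b j).2 (Or.inl hb.symm), hj0⟩, ?_⟩
        rw [if_pos hb.symm]
      · have hi1 : i + 1 = P.len j := by
          by_contra h
          exact P.int_br j (i + 1) b (Nat.succ_pos i) (by omega) hv.symm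
        rw [hi1, P.x_len] at hv
        have hb := P.br_inj hv
        refine ⟨j, Finset.mem_filter.2 ⟨(mem_inc b j).2 (Or.inr hb.symm), hj0⟩, ?_⟩
        have hne : pA j ≠ b := by rw [hb]; exact pA_ne_pB j
        rw [if_neg hne]
        congr 1
        omega
  rw [h1, hcard]
  exact hC.2.1 _

end Neg

/-- **For odd `k`, no graph that contains a subdivision of the Petersen graph has property
`P_k`.** -/
theorem result : ∀ (V E : Type) [Fintype E] (G : MGraph V E), Nonempty (PetSub G) →
    ∀ k : ℕ, Odd k → ¬ PropP k G := by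
  classical
  rintro V E _ G ⟨P⟩ k hk hP
  obtain ⟨χ, hχ, hcov⟩ := hP (wt P k) (fun e => Dvd.intro _ rfl) (admissible_wt P k)
    (eulerian_wt P k)
  -- coverage of the first edge of each path
  have hsum : ∀ j : Fin 15, ∑ C : Finset E, χ C * ci P C j = k * w0 j := by
    intro j
    rw [← wt_f P k j 0 (P.len_pos j), ← hcov, Finset.sum_filter]
    refine Finset.sum_congr rfl fun C _ => ?_
    unfold ci
    split_ifs <;> simp
  have hsub : ∀ C, χ C ≠ 0 → ∀ e ∈ C, ∃ j i, i < P.len j ∧ P.f j i = e := by
    intro C hC e he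
    apply wt_pos P k e
    rw [← hcov e]
    intro h0
    rw [Finset.sum_eq_zero_iff] at h0
    exact hC (h0 C (Finset.mem_filter.2 ⟨Finset.mem_univ _, he⟩))
  have hle : ∀ b : Fin 10, ∀ C : Finset E,
      χ C * (2 * ci P C (sp b)) ≤ χ C * ∑ j ∈ inc b, ci P C j := by
    intro b C
    by_cases h0 : χ C = 0
    · rw [h0]; simp
    · refine Nat.mul_le_mul_left _ ?_
      have h1 := branch_deg P C (hχ C h0) (hsub C h0) b
      have h2 := inc_sum (ci P C) b
      have h3 := ci_le P C (sp b)
      omega
  have heq : ∀ b : Fin 10, ∀ C : Finset E,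
      χ C * (2 * ci P C (sp b)) = χ C * ∑ j ∈ inc b, ci P C j := by
    intro b
    have h1 : ∑ C : Finset E, χ C * (2 * ci P C (sp b)) =
        ∑ C : Finset E, χ C * ∑ j ∈ inc b, ci P C j := by
      have e1 : ∑ C : Finset E, χ C * (2 * ci P C (sp b)) = 2 * (k * w0 (sp b)) := by
        rw [← hsum, Finset.mul_sum]
        exact Finset.sum_congr rfl fun C _ => by ring
      have e2 : ∑ C : Finset E, χ C * ∑ j ∈ inc b, ci P C j =
          k * w0 (sp b) + (k * w0 (r1 b) + k * w0 (r2 b)) := by
        rw [← hsum, ← hsum, ← hsum, ← Finset.sum_add_distrib, ← Finset.sum_add_distrib]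
        refine Finset.sum_congr rfl fun C _ => ?_
        rw [inc_sum]
        ring
      rw [e1, e2, w0_inc b]
      ring
    have h2 := (Finset.sum_eq_sum_iff_of_le (fun C _ => hle b C)).1 h1
    exact fun C => h2 C (Finset.mem_univ C)
  have hev : ∀ C : Finset E, χ C ≠ 0 →
      Even (ci P C 5 + ci P C 6 + ci P C 7 + ci P C 8 + ci P C 9) := by
    intro C h0
    refine outer_even (ci P C) (ci_le P C) fun b => ?_
    have h1 := Nat.eq_of_mul_eq_mul_left (Nat.pos_of_ne_zero h0) (heq b C)
    rw [inc_sum] at h1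
    omega
  have htot : ∑ C : Finset E, χ C * (ci P C 5 + ci P C 6 + ci P C 7 + ci P C 8 + ci P C 9) =
      5 * k := by
    have e : ∑ C : Finset E, χ C * (ci P C 5 + ci P C 6 + ci P C 7 + ci P C 8 + ci P C 9) =
        k * w0 5 + k * w0 6 + k * w0 7 + k * w0 8 + k * w0 9 := by
      rw [← hsum, ← hsum, ← hsum, ← hsum, ← hsum, ← Finset.sum_add_distrib,
        ← Finset.sum_add_distrib, ← Finset.sum_add_distrib, ← Finset.sum_add_distrib]
      refine Finset.sum_congr rfl fun C _ => ?_
      ring
    rw [e]
    have g5 : w0 5 = 1 := rfl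
    have g6 : w0 6 = 1 := rfl
    have g7 : w0 7 = 1 := rfl
    have g8 : w0 8 = 1 := rfl
    have g9 : w0 9 = 1 := rfl
    rw [g5, g6, g7, g8, g9]
    ring
  have heven : Even (∑ C : Finset E,
      χ C * (ci P C 5 + ci P C 6 + ci P C 7 + ci P C 8 + ci P C 9)) := by
    refine Finset.even_sum _ fun C _ => ?_
    by_cases h0 : χ C = 0
    · rw [h0, zero_mul]; exact Even.zero
    · exact (hev C h0).mul_left _
  rw [htot] at heven
  rw [Nat.even_iff] at heven
  rw [Nat.odd_iff] at hk
  omega

end Pool.Agent.Results.MP_3c540c_co.OddMultiples
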